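import Pool.Agent.Helper45.RT.Stmts3

/-!
Row DEG of project RTwo.
-/

set_option autoImplicit false

namespace RTwo

open Finset

namespace DegAux

/-- number with base four digits `f j` (zero or one) -/
def S (n : ℕ) (f : ℕ → Bool) : ℕ := ∑ j ∈ range n, (f j).toNat * 4 ^ j

lemma S_lt (n : ℕ) (f : ℕ → Bool) : S n f < 4 ^ n := by
  induction n with
  | zero => simp [S]
  | succ n ih =>
    have h : S (n + 1) f = S n f + (f n).toNat * 4 ^ n := by
      simp only [S, sum_range_succ]
    have h1 : (f n).toNat ≤ 1 := Bool.toNat_le _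
    have h2 : (f n).toNat * 4 ^ n ≤ 1 * 4 ^ n := Nat.mul_le_mul_right _ h1
    rw [h, pow_succ]
    have h3 : 0 < 4 ^ n := by positivity
    omega

lemma testBit_S (n : ℕ) (f : ℕ → Bool) (t : ℕ) :
    (S n f).testBit t = (decide (t % 2 = 0) && (decide (t / 2 < n) && f (t / 2))) := by
  induction n with
  | zero => simp [S]
  | succ n ih =>
    have h : S (n + 1) f = 2 ^ (2 * n) * (f n).toNat + S n f := by
      simp only [S, sum_range_succ]
      rw [pow_mul]
      norm_num
      ring
    have hlt : S n f < 2 ^ (2 * n) := by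
      rw [pow_mul]
      exact S_lt n f
    rw [h, Nat.testBit_two_pow_mul_add _ hlt, ih]
    by_cases h1 : t < 2 * n
    · rw [if_pos h1]
      have h2 : t / 2 < n := by omega
      have h3 : t / 2 < n + 1 := by omega
      simp [h2, h3]
    · rw [if_neg h1]
      have h2 : ¬ t / 2 < n := by omega
      by_cases h4 : t - 2 * n = 0
      · have h5 : t = 2 * n := by omega
        subst h5
        have h6 : 2 * n / 2 = n := by omega
        have h7 : 2 * n % 2 = 0 := by omega
        rw [h6, h7, h4]
        cases f n <;> simp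
      · have h5 : ((f n).toNat).testBit (t - 2 * n) = false := by
          apply Nat.testBit_lt_two_pow
          have h1 : (f n).toNat ≤ 1 := Bool.toNat_le _
          have h6 : 2 ^ 1 ≤ 2 ^ (t - 2 * n) := Nat.pow_le_pow_right (by norm_num) (by omega)
          omega
        rw [h5]
        by_cases h6 : t % 2 = 0
        · have h7 : ¬ t / 2 < n + 1 := by omega
          simp [h7]
        · simp [h6]

lemma pop_S (f : ℕ → Bool) : pop (S 10 f) = ∑ j ∈ range 10, (f j).toNat := by
  simp only [S, sum_range_succ, sum_range_zero]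
  generalize f 0 = b0
  generalize f 1 = b1
  generalize f 2 = b2
  generalize f 3 = b3
  generalize f 4 = b4
  generalize f 5 = b5
  generalize f 6 = b6
  generalize f 7 = b7
  generalize f 8 = b8
  generalize f 9 = b9
  revert b0 b1 b2 b3 b4 b5 b6 b7 b8 b9
  decide

lemma mask_testBit (t : ℕ) :
    (349525 : ℕ).testBit t = (decide (t % 2 = 0) && decide (t / 2 < 10)) := by
  by_cases h : t < 20
  · interval_cases t <;> rfl
  · have h1 : (349525 : ℕ).testBit t = false := by
      apply Nat.testBit_lt_two_pow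
      have h2 : 2 ^ 20 ≤ 2 ^ t := Nat.pow_le_pow_right (by norm_num) (by omega)
      have h3 : (349525 : ℕ) < 2 ^ 20 := by norm_num
      omega
    have h2 : ¬ t / 2 < 10 := by omega
    rw [h1]
    simp [h2]

lemma land_mask (Y : ℕ) : Nat.land Y 349525 = S 10 (fun j => Y.testBit (2 * j)) := by
  apply Nat.eq_of_testBit_eq
  intro t
  have h0 : Nat.land Y 349525 = Y &&& 349525 := rfl
  rw [h0, Nat.testBit_and, testBit_S, mask_testBit]
  by_cases h1 : t % 2 = 0
  · have h2 : 2 * (t / 2) = t := by omega
    rw [h2]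
    cases Y.testBit t <;> simp
  · simp [h1]

lemma pop_land (Y : ℕ) : pop (Nat.land Y 349525) = ∑ j ∈ range 10, (Y.testBit (2 * j)).toNat := by
  rw [land_mask, pop_S]

lemma rowA_eq (X v : ℕ) : rowA X v = ∑ j ∈ range 10, (X.testBit (20 * v + 2 * j + 0)).toNat := by
  unfold rowA
  rw [pop_land]
  apply sum_congr rfl
  intro j _
  have h : (Nat.shiftRight X (Nat.mul 20 v)).testBit (2 * j) = X.testBit (20 * v + 2 * j) :=
    Nat.testBit_shiftRight X
  rw [h]
  rfl

lemma rowB_eq (X v : ℕ) : rowB X v = ∑ j ∈ range 10, (X.testBit (20 * v + 2 * j + 1)).toNat := by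
  unfold rowB
  rw [pop_land]
  apply sum_congr rfl
  intro j _
  have h : (Nat.shiftRight X (Nat.succ (Nat.mul 20 v))).testBit (2 * j)
      = X.testBit (20 * v + 1 + 2 * j) := Nat.testBit_shiftRight X
  have h2 : 20 * v + 1 + 2 * j = 20 * v + 2 * j + 1 := by ring
  rw [h, h2]

lemma card_eq (k v q : ℕ) (c : Col) :
    ((range k).filter (fun w => c v w = q)).card = ∑ j ∈ range k, (decide (c v j = q)).toNat := by
  rw [card_filter]
  apply sum_congr rfl
  intro j _
  by_cases h : c v j = q <;> simp [h]

lemma row_gen (h1 : ST_BITS) (k : ℕ) (c : Col) (hk : k ≤ 10) (hc : SymC k c) (v : ℕ) (hv : v < k)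
    (e : ℕ) (he : e < 2) :
    ∑ j ∈ range 10, ((code k c).testBit (20 * v + 2 * j + e)).toNat
      = ((range k).filter (fun w => c v w = e + 1)).card := by
  have hc3 : ∀ i j, i < k → j < k → c i j ≤ 3 := fun i j hi hj =>
    le_trans (hc i j hi hj).2.2 (by norm_num)
  obtain ⟨b1, b2, -⟩ := h1 k c hk hc3
  rw [card_eq]
  have hsub : range k ⊆ range 10 := range_subset_range.2 hk
  rw [← sum_subset hsub]
  · apply sum_congr rfl
    intro j hj
    rw [b1 v j e hv (mem_range.1 hj) he]
    have h2 := (hc v j hv (mem_range.1 hj)).2.2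
    interval_cases e
    · generalize c v j = x at h2
      interval_cases x <;> rfl
    · generalize c v j = x at h2
      interval_cases x <;> rfl
  · intro j hj hj'
    rw [b2 v j e hv (mem_range.1 hj) (by simpa using hj') he]
    rfl

lemma nAB_le (k : ℕ) (c : Col) (v : ℕ) : dgr k c v ≤ k := by
  unfold dgr nA nB
  rw [← card_union_of_disjoint]
  · calc _ ≤ (range k).card := card_le_card (by
          intro x hx
          simp only [mem_union, mem_filter] at hx
          rcases hx with h | h <;> exact h.1)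
      _ = k := card_range k
  · rw [disjoint_left]
    intro x hx hy
    simp only [mem_filter] at hx hy
    omega

lemma sumA_rec (X : ℕ) (k : ℕ) : sumA X k = ∑ v ∈ range k, rowA X v := by
  induction k with
  | zero => rfl
  | succ k ih =>
    rw [sum_range_succ, ← ih, Nat.add_comm (sumA X k)]
    rfl

lemma sumB_rec (X : ℕ) (k : ℕ) : sumB X k = ∑ v ∈ range k, rowB X v := by
  induction k with
  | zero => rfl
  | succ k ih =>
    rw [sum_range_succ, ← ih, Nat.add_comm (sumB X k)]
    rfl

lemma degs_rec (X : ℕ) (m : ℕ) :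
    degs X (m + 1) = (rowA X m + rowB X m) * 16 ^ m + degs X m := by
  have h : degs X (m + 1) = Nat.shiftLeft (rowA X m + rowB X m) (4 * m) + degs X m := rfl
  rw [h]
  have h2 : Nat.shiftLeft (rowA X m + rowB X m) (4 * m) = (rowA X m + rowB X m) * 16 ^ m := by
    have h3 : Nat.shiftLeft (rowA X m + rowB X m) (4 * m) = (rowA X m + rowB X m) <<< (4 * m) := rfl
    rw [h3, Nat.shiftLeft_eq, pow_mul]
    norm_num
  rw [h2]

lemma degs_spec (X : ℕ) (d : ℕ → ℕ) (m : ℕ) (hd : ∀ v, v < m → rowA X v + rowB X v = d v)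
    (hb : ∀ v, v < m → d v < 16) :
    degs X m < 16 ^ m ∧ ∀ v, v < m → degs X m / 16 ^ v % 16 = d v := by
  induction m with
  | zero => exact ⟨by simp [degs], fun v hv => absurd hv (Nat.not_lt_zero v)⟩
  | succ m ih =>
    obtain ⟨i1, i2⟩ := ih (fun v hv => hd v (by omega)) (fun v hv => hb v (by omega))
    rw [degs_rec, hd m (by omega)]
    have hbm := hb m (by omega)
    have hpos : 0 < 16 ^ m := by positivity
    refine ⟨?_, ?_⟩
    · have h2 : d m * 16 ^ m ≤ 15 * 16 ^ m := Nat.mul_le_mul_right _ (by omega)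
      rw [pow_succ]
      omega
    · intro v hv
      by_cases h : v = m
      · subst h
        rw [add_comm, Nat.add_mul_div_right _ _ hpos, Nat.div_eq_of_lt i1, zero_add]
        exact Nat.mod_eq_of_lt hbm
      · have hvm : v < m := by omega
        obtain ⟨w, rfl⟩ : ∃ w, m = v + 1 + w := ⟨m - v - 1, by omega⟩
        have e1 : d (v + 1 + w) * 16 ^ (v + 1 + w) + degs X (v + 1 + w)
            = degs X (v + 1 + w) + (d (v + 1 + w) * 16 ^ w * 16) * 16 ^ v := by
          rw [pow_add, pow_succ]
          ring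
        rw [e1, Nat.add_mul_div_right _ _ (by positivity), Nat.add_mul_mod_self_right]
        exact i2 v hvm

lemma minD_rec (X : ℕ) (m : ℕ) :
    minD X (m + 1) = min (rowA X m + rowB X m) (minD X m) := by
  have h : minD X (m + 1) = seln (Nat.ble (rowA X m + rowB X m) (minD X m))
    (rowA X m + rowB X m) (minD X m) := rfl
  rw [h]
  by_cases h1 : rowA X m + rowB X m ≤ minD X m
  · have h2 : Nat.ble (rowA X m + rowB X m) (minD X m) = true := Nat.ble_eq_true_of_le h1
    rw [h2, min_eq_left h1]
    rfl
  · have h2 : Nat.ble (rowA X m + rowB X m) (minD X m) = false := by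
      cases hb : Nat.ble (rowA X m + rowB X m) (minD X m)
      · rfl
      · exact absurd (Nat.le_of_ble_eq_true hb) h1
    rw [h2, min_eq_right (by omega)]
    rfl

lemma minD_spec (X : ℕ) (d : ℕ → ℕ) (m : ℕ) (hd : ∀ v, v < m → rowA X v + rowB X v = d v)
    (hb : ∀ v, v < m → d v ≤ 15) :
    minD X m ≤ 15 ∧ (0 < m → ∃ v, v < m ∧ minD X m = d v) ∧ (∀ v, v < m → minD X m ≤ d v) := by
  induction m with
  | zero => exact ⟨le_refl _, fun h => absurd h (lt_irrefl 0), fun v hv => absurd hv (Nat.not_lt_zero v)⟩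
  | succ m ih =>
    obtain ⟨i1, i2, i3⟩ := ih (fun v hv => hd v (by omega)) (fun v hv => hb v (by omega))
    rw [minD_rec, hd m (by omega)]
    have hbm := hb m (by omega)
    refine ⟨le_trans (min_le_right _ _) i1, fun _ => ?_, ?_⟩
    · by_cases h : d m ≤ minD X m
      · exact ⟨m, by omega, min_eq_left h⟩
      · rcases Nat.eq_zero_or_pos m with h0 | h0
        · subst h0
          have h1 : minD X 0 = 15 := rfl
          omega
        · obtain ⟨v, hv, e⟩ := i2 h0
          exact ⟨v, by omega, by rw [min_eq_right (by omega), e]⟩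
    · intro v hv
      by_cases h : v = m
      · subst h
        exact min_le_left _ _
      · exact le_trans (min_le_right _ _) (i3 v (by omega))

end DegAux

open DegAux in
theorem st_DEG (h1 : ST_BITS) : ST_DEG := by
  intro k c hk hk10 hc
  have hA : ∀ v, v < k → rowA (code k c) v = nA k c v := fun v hv => by
    rw [rowA_eq]
    exact row_gen h1 k c hk10 hc v hv 0 (by norm_num)
  have hB : ∀ v, v < k → rowB (code k c) v = nB k c v := fun v hv => by
    rw [rowB_eq]
    exact row_gen h1 k c hk10 hc v hv 1 (by norm_num)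
  have hd : ∀ v, v < k → rowA (code k c) v + rowB (code k c) v = dgr k c v := fun v hv => by
    rw [hA v hv, hB v hv]
    rfl
  have hb : ∀ v, v < k → dgr k c v ≤ 10 := fun v _ => le_trans (nAB_le k c v) hk10
  obtain ⟨d1, d2⟩ := degs_spec (code k c) (dgr k c) k hd (fun v hv => lt_of_le_of_lt (hb v hv) (by norm_num))
  obtain ⟨-, m2, m3⟩ := minD_spec (code k c) (dgr k c) k hd (fun v hv => le_trans (hb v hv) (by norm_num))
  refine ⟨fun v hv => ⟨hA v hv, hB v hv⟩, ?_, ?_, d2, d1, m2 hk, m3⟩
  · rw [sumA_rec]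
    exact sum_congr rfl (fun v hv => hA v (mem_range.1 hv))
  · rw [sumB_rec]
    exact sum_congr rfl (fun v hv => hB v (mem_range.1 hv))

end RTwo
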